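import Pool.Agent.Helper27_Sob.Statements
import Pool.Agent.Helper27_Sob.Basic

/-!
Module B3 of the blueprint for MP_60fe1d_an: the multiple points of the projection.
-/

set_option autoImplicit false

open Set Filter Topology Metric MeasureTheory
open scoped ENNReal NNReal

namespace Pool.Agent.Helper13Sob

open Pool.Agent.Helper27Sob

/-- Pairs of different points of `K` with the same projection, the first one in a compact set
disjoint from `C`, are finite in number. -/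
theorem finite_pairs {K C Q : Set E} {Y : E → Z × ℝ} (hG : Generic K C Y) (hQ : IsCompact Q)
    (hQK : Q ⊆ K) (hQC : Disjoint Q C) :
    {pq : E × E | pq.1 ∈ Q ∧ pq.2 ∈ K ∧ pq.1 ≠ pq.2 ∧ (Y pq.1).1 = (Y pq.2).1}.Finite := by
  have h3 : ∀ p₀ ∈ Q, ∃ r > 0, {pq : E × E | pq.1 ∈ K ∩ ball p₀ r ∧ pq.2 ∈ K ∧ pq.1 ≠ pq.2 ∧
      (Y pq.1).1 = (Y pq.2).1}.Finite := fun p₀ hp₀ =>
    hG.g3 p₀ ⟨hQK hp₀, fun hc => (Set.disjoint_left.1 hQC) hp₀ hc⟩
  choose! r hr hfin using h3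
  obtain ⟨t, ht, hcov⟩ := hQ.elim_nhds_subcover (fun x => ball x (r x))
    (fun x hx => ball_mem_nhds x (hr x hx))
  have hfin' : (⋃ p₀ ∈ (t : Set E), {pq : E × E | pq.1 ∈ K ∩ ball p₀ (r p₀) ∧ pq.2 ∈ K ∧
      pq.1 ≠ pq.2 ∧ (Y pq.1).1 = (Y pq.2).1}).Finite :=
    t.finite_toSet.biUnion fun p₀ hp₀ => hfin p₀ (ht p₀ hp₀)
  refine hfin'.subset ?_
  rintro ⟨p, q⟩ ⟨hp, hq, hne, heq⟩
  obtain ⟨p₀, hp₀, hpb⟩ : ∃ p₀ ∈ t, p ∈ ball p₀ (r p₀) := by simpa using hcov hp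
  simp only [mem_iUnion]
  exact ⟨p₀, hp₀, ⟨hQK hp, hpb⟩, hq, hne, heq⟩

theorem b3 : B3Statement := by
  intro K C Y hK hC hCK hCne hG
  set P : Set Z := (fun p => (Y p).1) '' C with hP
  have hYc : Continuous fun p => (Y p).1 := continuous_fst.comp Y.continuous
  have hPc : IsCompact P := hC.image hYc
  have hPne : P.Nonempty := hCne.image _
  have h2 : ∀ o ∈ Mult K Y, o ∉ P := by
    rintro o ⟨p, hp, q, hq, hne, hpo, hqo⟩ ⟨c, hc, hco⟩
    simp only at hco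
    have e1 := hG.g1 c hc p hp (by rw [hpo, hco])
    have e2 := hG.g1 c hc q hq (by rw [hqo, hco])
    exact hne (e1.trans e2.symm)
  have hpos : ∀ o ∈ Mult K Y, 0 < infDist o P := fun o ho =>
    (hPc.isClosed.notMem_iff_infDist_pos hPne).1 (h2 o ho)
  have h3 : ∀ θ > 0, {o ∈ Mult K Y | θ ≤ infDist o P}.Finite := by
    intro θ hθ
    have hQc : IsCompact (K ∩ {p | θ ≤ infDist (Y p).1 P}) :=
      hK.inter_right (isClosed_le continuous_const ((continuous_infDist_pt P).comp hYc))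
    have hQC : Disjoint (K ∩ {p | θ ≤ infDist (Y p).1 P}) C := by
      rw [Set.disjoint_left]
      rintro p ⟨_, hp⟩ hpC
      have : infDist (Y p).1 P = 0 := infDist_zero_of_mem ⟨p, hpC, rfl⟩
      simp only [mem_setOf_eq] at hp
      linarith
    have hfin := finite_pairs hG hQc inter_subset_left hQC
    refine (hfin.image fun pq => (Y pq.1).1).subset ?_
    rintro o ⟨⟨p, hp, q, hq, hne, hpo, hqo⟩, hoθ⟩
    refine ⟨(p, q), ⟨⟨hp, ?_⟩, hq, hne, ?_⟩, hpo⟩
    · simp only [mem_setOf_eq]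
      rw [hpo]
      exact hoθ
    · rw [hpo, hqo]
  have h1 : (Mult K Y).Countable := by
    have : Mult K Y ⊆ ⋃ n : ℕ, {o ∈ Mult K Y | 1 / ((n : ℝ) + 1) ≤ infDist o P} := by
      intro o ho
      obtain ⟨n, hn⟩ := exists_nat_one_div_lt (hpos o ho)
      exact mem_iUnion.2 ⟨n, ho, hn.le⟩
    exact (countable_iUnion fun n => (h3 _ (by positivity)).countable).mono this
  have h4 : ∀ o ∈ Mult K Y, {p ∈ K | (Y p).1 = o}.Finite := by
    intro o ho
    have hQc : IsCompact (K ∩ {p | (Y p).1 = o}) :=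
      hK.inter_right (isClosed_eq hYc continuous_const)
    have hQC : Disjoint (K ∩ {p | (Y p).1 = o}) C := by
      rw [Set.disjoint_left]
      rintro p ⟨_, hp⟩ hpC
      exact h2 o ho ⟨p, hpC, hp⟩
    have hfin := finite_pairs hG hQc inter_subset_left hQC
    refine (hfin.image Prod.fst).subset ?_
    rintro x ⟨hx, hxo⟩
    obtain ⟨p, hp, q, hq, hne, hpo, hqo⟩ := ho
    by_cases hxp : x = p
    · exact ⟨(x, q), ⟨⟨hx, hxo⟩, hq, by rw [hxp]; exact hne, by rw [hxo, hqo]⟩, rfl⟩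
    · exact ⟨(x, p), ⟨⟨hx, hxo⟩, hp, hxp, by rw [hxo, hpo]⟩, rfl⟩
  refine ⟨h1, h2, h3, h4, ?_⟩
  have hδ : ∀ o ∈ Mult K Y, ∃ δ > 0, ∀ o' ∈ Mult K Y, o' ≠ o → δ ≤ dist o o' := by
    intro o ho
    have hfin : ({o' ∈ Mult K Y | infDist o P / 2 ≤ infDist o' P} \ {o}).Finite :=
      (h3 _ (half_pos (hpos o ho))).subset diff_subset
    obtain ⟨δ, hδ, hδb⟩ : ∃ δ > 0, ∀ o' ∈ {o' ∈ Mult K Y | infDist o P / 2 ≤ infDist o' P} \ {o},
        δ ≤ dist o o' := by
      have hcl : IsClosed ({o' ∈ Mult K Y | infDist o P / 2 ≤ infDist o' P} \ {o}) := hfin.isClosed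
      have hno : o ∈ ({o' ∈ Mult K Y | infDist o P / 2 ≤ infDist o' P} \ {o})ᶜ := by simp
      obtain ⟨δ, hδ, hδb⟩ := Metric.isOpen_iff.1 hcl.isOpen_compl o hno
      refine ⟨δ, hδ, fun o' ho' => ?_⟩
      by_contra hlt
      push Not at hlt
      exact hδb (by rw [mem_ball, dist_comm]; exact hlt) ho'
    refine ⟨min δ (infDist o P / 2), lt_min hδ (half_pos (hpos o ho)), fun o' ho' hne => ?_⟩
    by_cases hh : infDist o P / 2 ≤ infDist o' P
    · exact (min_le_left _ _).trans (hδb o' ⟨⟨ho', hh⟩, hne⟩)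
    · push Not at hh
      have : infDist o P ≤ infDist o' P + dist o o' := infDist_le_infDist_add_dist
      exact (min_le_right _ _).trans (by linarith)
  choose! δ hδ0 hδ' using hδ
  have hτ : ∀ o ∈ Mult K Y, ∃ τ : ℝ, ∃ p ∈ K, Y p = (o, τ) := by
    rintro o ⟨p, hp, q, hq, hne, hpo, hqo⟩
    exact ⟨(Y p).2, p, hp, Prod.ext hpo rfl⟩
  choose! τ hτ using hτ
  refine ⟨fun o => min (infDist o P / 2) (δ o / 3), τ, fun o ho => ⟨?_, min_le_left _ _, hτ o ho⟩,
    fun o ho o' ho' hne => ?_⟩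
  · exact lt_min (half_pos (hpos o ho)) (div_pos (hδ0 o ho) (by norm_num))
  · apply closedBall_disjoint_closedBall
    have e1 := hδ' o ho o' ho' hne.symm
    have e2 := hδ' o' ho' o ho hne
    rw [dist_comm] at e2
    have e3 := min_le_right (infDist o P / 2) (δ o / 3)
    have e4 := min_le_right (infDist o' P / 2) (δ o' / 3)
    have e5 := hδ0 o ho
    have e6 := hδ0 o' ho'
    show min (infDist o P / 2) (δ o / 3) + min (infDist o' P / 2) (δ o' / 3) < dist o o'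
    linarith

end Pool.Agent.Helper13Sob
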