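import Pool.Agent.Helper27_Sob.Statements
import Pool.Agent.Helper27_Sob.Basic
import Pool.Agent.Helper13_Sob.B3

/-!
Module B10 of the blueprint for MP_60fe1d_an: the spikes have small energy.
-/

set_option autoImplicit false

open Set Filter Topology Metric MeasureTheory
open scoped ENNReal NNReal

namespace Pool.Agent.Helper13Sob

open Pool.Agent.Helper27Sob

theorem len_pos (F : Cell) : 0 < F.len := by
  unfold Cell.len ell
  positivity

theorem isClosed_carrier (F : Cell) : IsClosed F.carrier := by
  have : F.carrier = ⋂ j, {x : E | |x j - F.center j| ≤ if Odd (F.q j) then F.len / 2 else 0} := by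
    ext x
    simp [Cell.carrier]
  rw [this]
  refine isClosed_iInter fun j => ?_
  exact isClosed_le (((continuous_apply j).sub continuous_const).abs) continuous_const

theorem carrier_subset_thick (F : Cell) : F.carrier ⊆ F.thick := by
  intro x hx
  have h := len_pos F
  rw [Cell.thick, mem_closedBall, dist_pi_le_iff (by positivity)]
  intro j
  have := hx j
  rw [Real.dist_eq]
  split_ifs at this
  · exact this
  · exact this.trans (by positivity)

theorem isCompact_carrier (F : Cell) : IsCompact F.carrier :=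
  (isCompact_closedBall _ _).of_isClosed_subset (isClosed_carrier F) (carrier_subset_thick F)

theorem carrier_disjoint {C : Set E} {F : Cell} (h : Unref C F) : Disjoint F.carrier C := by
  rw [Set.disjoint_left]
  intro x hx hxC
  have hl := len_pos F
  have : x ∈ F.star := by
    intro j
    have := hx j
    split_ifs at this with hj
    · simp only [hj, if_true]
      exact this
    · simp only [hj, if_false]
      exact this.trans hl.le
  have := h x this x hxC
  simp at this
  linarith

theorem proj_mem (F : Cell) {x : E} (hx : x ∈ F.thick) : F.proj x ∈ F.carrier := by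
  rw [Cell.thick, mem_closedBall, dist_pi_le_iff (by have := len_pos F; positivity)] at hx
  intro j
  by_cases hj : Odd (F.q j)
  · simp only [Cell.proj, hj, if_true]
    have := hx j
    rwa [Real.dist_eq] at this
  · simp [Cell.proj, hj]

theorem continuous_proj (F : Cell) : Continuous F.proj := by
  refine continuous_pi fun j => ?_
  by_cases hj : Odd (F.q j)
  · simp only [Cell.proj, hj, if_true]
    exact continuous_apply j
  · simp only [Cell.proj, hj, if_false]
    exact continuous_const

theorem norm_proj_sub (F : Cell) (x : E) {p : E} (hp : p ∈ F.carrier) :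
    ‖F.proj x - p‖ =
      ‖fun j : Fin 5 => if j ∈ Finset.univ.filter (fun j => Odd (F.q j)) then x j - p j else 0‖ := by
  congr 1
  funext j
  by_cases hj : Odd (F.q j)
  · simp [Cell.proj, hj]
  · have := hp j
    simp only [hj, if_false] at this
    have h0 : p j = F.center j := by
      have := abs_nonpos_iff.1 this
      linarith
    simp [Cell.proj, hj, h0]

/-- The preimage of a point of the cell under the projection is a null set. -/
theorem ae_proj_ne {F : Cell} (hF : 0 < F.dim) (p : E) : ∀ᵐ x : E, F.proj x ≠ p := by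
  obtain ⟨j, hj⟩ := Finset.card_pos.1 hF
  have hj : Odd (F.q j) := by simpa using hj
  have : ∀ᵐ x : E, x j ≠ p j := by
    have h1 : (volume : Measure E) = Measure.pi fun _ => volume := rfl
    rw [h1]
    have h2 : ∀ᵐ y : ℝ, y ≠ p j := by
      rw [ae_iff]
      simp
    exact (Measure.quasiMeasurePreserving_eval (μ := fun _ : Fin 5 => (volume : Measure ℝ)) j).ae h2
  filter_upwards [this] with x hx heq
  apply hx
  rw [← heq]
  simp [Cell.proj, hj]

theorem b10 : B10Statement := by
  intro C R Y cap hC hG hY F hF o ho A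
  obtain ⟨hFC, hFd, hFR⟩ := hF
  have hYc : Continuous fun p => (Y p).1 := continuous_fst.comp Y.continuous
  have hFK : F.carrier ⊆ KK C R := fun x hx => Or.inr (mem_iUnion₂.2 ⟨F, ⟨hFC, hFd, hFR⟩, hx⟩)
  have hFdisj : Disjoint F.carrier C := carrier_disjoint hFC.1
  set J : Finset (Fin 5) := Finset.univ.filter (fun j => Odd (F.q j)) with hJ
  have hJc : J.card = 2 := hFd
  -- the local estimate
  have hloc : ∀ p₀ ∈ F.carrier, ∃ r > 0, ∃ c > 0, (Y p₀).1 = o → ∀ p ∈ F.carrier ∩ ball p₀ r,
      c * ‖p - p₀‖ ≤ dist (Y p).1 o / 2 := by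
    intro p₀ hp₀
    obtain ⟨r, hr, L, hL⟩ := hG.g2 p₀ ⟨hFK hp₀, Set.disjoint_left.1 hFdisj hp₀⟩
    refine ⟨r, hr, 1 / (2 * max L 1), by positivity, fun hpo p hp => ?_⟩
    have h1 := hL p ⟨hFK hp.1, hp.2⟩ p₀ ⟨hFK hp₀, mem_ball_self hr⟩
    rw [hpo, ← dist_eq_norm (Y p).1 o] at h1
    have h2 : L * dist (Y p).1 o ≤ max L 1 * dist (Y p).1 o :=
      mul_le_mul_of_nonneg_right (le_max_left _ _) dist_nonneg
    have h3 : (0 : ℝ) < max L 1 := lt_of_lt_of_le one_pos (le_max_right _ _)
    rw [div_mul_eq_mul_div, one_mul, div_le_div_iff₀ (by positivity) (by norm_num)]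
    nlinarith
  choose! r hr c hc hest using hloc
  -- the fibre is compact
  have hQc : IsCompact (F.carrier ∩ {p | (Y p).1 = o}) :=
    (isCompact_carrier F).inter_right (isClosed_eq hYc continuous_const)
  obtain ⟨t, ht, hcov⟩ := hQc.elim_nhds_subcover (fun x => ball x (r x))
    (fun x hx => ball_mem_nhds x (hr x hx.1))
  -- away from the balls the distance is bounded below
  have hfar : ∃ δ > 0, ∀ p ∈ F.carrier, dist (Y p).1 o < δ → ∃ p₀ ∈ t, p ∈ ball p₀ (r p₀) := by
    have hVo : IsOpen (⋃ p₀ ∈ t, ball p₀ (r p₀)) := isOpen_biUnion fun _ _ => isOpen_ball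
    have hWc : IsCompact (F.carrier \ ⋃ p₀ ∈ t, ball p₀ (r p₀)) := (isCompact_carrier F).diff hVo
    rcases (F.carrier \ ⋃ p₀ ∈ t, ball p₀ (r p₀)).eq_empty_or_nonempty with hemp | hne
    · refine ⟨1, one_pos, fun p hp _ => ?_⟩
      by_contra hcon
      have : p ∈ F.carrier \ ⋃ p₀ ∈ t, ball p₀ (r p₀) := ⟨hp, by simpa using hcon⟩
      rw [hemp] at this
      exact this
    · obtain ⟨q, hq, hmin⟩ := hWc.exists_isMinOn hne
        ((hYc.dist (continuous_const (y := o))).continuousOn)
      refine ⟨dist (Y q).1 o, ?_, fun p hp hlt => ?_⟩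
      · refine dist_pos.2 ?_
        intro hqo
        exact hq.2 (hcov ⟨hq.1, hqo⟩)
      · by_contra hcon
        have : p ∈ F.carrier \ ⋃ p₀ ∈ t, ball p₀ (r p₀) := ⟨hp, by simpa using hcon⟩
        have := hmin this
        simp only [mem_setOf_eq] at this
        linarith
  obtain ⟨δ, hδ, hδ'⟩ := hfar
  -- the dominating function
  set g : E → ℝ≥0∞ := fun x => ∑ p₀ ∈ t, ENNReal.ofReal (|A| * (1 + cap.w (c p₀ *
    ‖fun j : Fin 5 => if j ∈ J then x j - p₀ j else 0‖))) ^ 2 with hg
  have hnonneg : ∀ (p : E) (x : E), 0 ≤ cap.w (c p *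
    ‖fun j : Fin 5 => if j ∈ J then x j - p j else 0‖) := fun p x => cap.w_nonneg _
  have hgint : ∫⁻ x in F.thick, g x ≠ ∞ := by
    have hmeas : ∀ p₀ : E, Measurable fun x : E => ENNReal.ofReal (|A| * (1 + cap.w (c p₀ *
        ‖fun j : Fin 5 => if j ∈ J then x j - p₀ j else 0‖))) ^ 2 := by
      intro p₀
      refine Measurable.pow_const (ENNReal.measurable_ofReal.comp ?_) 2
      refine (measurable_const.add (cap.w_meas.comp ?_)).const_mul _
      refine Measurable.const_mul (Continuous.measurable ?_) _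
      refine continuous_norm.comp (continuous_pi fun j => ?_)
      by_cases hj : j ∈ J
      · simp only [hj, if_true]
        exact (continuous_apply j).sub continuous_const
      · simp only [hj, if_false]
        exact continuous_const
    rw [hg, lintegral_finsetSum _ (fun p₀ _ => hmeas p₀)]
    refine (ENNReal.sum_lt_top.2 fun p₀ hp₀ => ?_).ne
    have hp₀F : p₀ ∈ F.carrier := (ht p₀ hp₀).1
    have hsub : F.thick ⊆ closedBall p₀ F.len := by
      intro x hx
      have h1 := carrier_subset_thick F hp₀F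
      rw [Cell.thick, mem_closedBall] at hx h1
      rw [mem_closedBall]
      calc dist x p₀ ≤ dist x F.center + dist F.center p₀ := dist_triangle _ _ _
        _ ≤ F.len / 2 + F.len / 2 := by
            rw [dist_comm F.center p₀]
            linarith
        _ = F.len := by ring
    have hcint := cap.w_int J hJc p₀ (c p₀) F.len (hc p₀ hp₀F)
    calc ∫⁻ x in F.thick, ENNReal.ofReal (|A| * (1 + cap.w (c p₀ *
          ‖fun j : Fin 5 => if j ∈ J then x j - p₀ j else 0‖))) ^ 2
        ≤ ∫⁻ x in closedBall p₀ F.len, ENNReal.ofReal (|A| * (1 + cap.w (c p₀ *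
          ‖fun j : Fin 5 => if j ∈ J then x j - p₀ j else 0‖))) ^ 2 :=
          lintegral_mono_set hsub
      _ ≤ ∫⁻ x in closedBall p₀ F.len, ENNReal.ofReal (2 * A ^ 2) * (1 + ENNReal.ofReal (cap.w (c p₀ *
          ‖fun j : Fin 5 => if j ∈ J then x j - p₀ j else 0‖) ^ 2)) := by
          refine lintegral_mono fun x => ?_
          set W := cap.w (c p₀ * ‖fun j : Fin 5 => if j ∈ J then x j - p₀ j else 0‖) with hW
          have hW0 : 0 ≤ W := cap.w_nonneg _
          rw [← ENNReal.ofReal_pow (by positivity), ← ENNReal.ofReal_one,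
            ← ENNReal.ofReal_add zero_le_one (by positivity), ← ENNReal.ofReal_mul (by positivity)]
          apply ENNReal.ofReal_le_ofReal
          rw [mul_pow, sq_abs]
          nlinarith [sq_nonneg (A * (1 - W)), sq_nonneg A]
      _ = ENNReal.ofReal (2 * A ^ 2) * (volume (closedBall p₀ F.len) + ∫⁻ x in closedBall p₀ F.len,
          ENNReal.ofReal (cap.w (c p₀ *
          ‖fun j : Fin 5 => if j ∈ J then x j - p₀ j else 0‖) ^ 2)) := by
          rw [lintegral_const_mul' _ _ ENNReal.ofReal_ne_top, lintegral_add_left measurable_const]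
          simp
      _ < ∞ := by
          refine ENNReal.mul_lt_top ENNReal.ofReal_lt_top (ENNReal.add_lt_top.2 ⟨?_, hcint⟩)
          exact (isCompact_closedBall _ _).measure_lt_top
  have hzero : ∫⁻ x in F.thick, (0 : ℝ≥0∞) = 0 := lintegral_zero
  rw [← hzero]
  have hcd : Continuous fun x => dist (Y (F.proj x)).1 o :=
    (hYc.comp (continuous_proj F)).dist continuous_const
  have hne : ∀ᵐ x ∂(volume.restrict F.thick), ∀ p₀ ∈ t, F.proj x ≠ p₀ := by
    rw [Filter.eventually_all_finset]
    intro p₀ _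
    exact ae_restrict_of_ae (ae_proj_ne (by rw [hFd]; norm_num) p₀)
  have hin : ∀ᵐ x ∂(volume.restrict F.thick), x ∈ F.thick :=
    ae_restrict_mem measurableSet_closedBall
  have hev : ∀ᶠ n in atTop, cap.r n < δ := cap.r_lim.eventually (gt_mem_nhds hδ)
  refine tendsto_lintegral_filter_of_dominated_convergence g ?_ ?_ hgint ?_
  · refine Eventually.of_forall fun n => ?_
    refine Measurable.indicator ?_ ?_
    · refine Measurable.pow_const (ENNReal.measurable_ofReal.comp ?_) 2
      exact (measurable_const.add (cap.w_meas.comp (hcd.measurable.div_const 2))).const_mul _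
    · exact (isClosed_le hcd continuous_const).measurableSet
  · filter_upwards [hev] with n hn
    filter_upwards [hne, hin] with x hx hxF
    by_cases hxn : x ∈ {x | dist (Y (F.proj x)).1 o ≤ cap.r n}
    · rw [indicator_of_mem hxn]
      have hlt : dist (Y (F.proj x)).1 o < δ := lt_of_le_of_lt hxn hn
      obtain ⟨p₀, hp₀, hpb⟩ := hδ' _ (proj_mem F hxF) hlt
      have hp₀F : p₀ ∈ F.carrier := (ht p₀ hp₀).1
      have hp₀o : (Y p₀).1 = o := (ht p₀ hp₀).2
      have h1 := hest p₀ hp₀F hp₀o _ ⟨proj_mem F hxF, hpb⟩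
      have h2 : 0 < ‖F.proj x - p₀‖ := norm_pos_iff.2 (sub_ne_zero.2 (hx p₀ hp₀))
      have h3 : 0 < c p₀ * ‖F.proj x - p₀‖ := mul_pos (hc p₀ hp₀F) h2
      have h4 : cap.w (dist (Y (F.proj x)).1 o / 2) ≤ cap.w (c p₀ * ‖F.proj x - p₀‖) :=
        cap.w_anti h3 (lt_of_lt_of_le h3 h1) h1
      rw [norm_proj_sub F x hp₀F] at h4
      calc ENNReal.ofReal (A * (1 + cap.w (dist (Y (F.proj x)).1 o / 2))) ^ 2
          ≤ ENNReal.ofReal (|A| * (1 + cap.w (c p₀ *
            ‖fun j : Fin 5 => if j ∈ J then x j - p₀ j else 0‖))) ^ 2 := by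
            gcongr
            · have := cap.w_nonneg (dist (Y (F.proj x)).1 o / 2)
              positivity
            · exact le_abs_self A
        _ ≤ g x := Finset.single_le_sum (f := fun p₀ => ENNReal.ofReal (|A| * (1 + cap.w (c p₀ *
            ‖fun j : Fin 5 => if j ∈ J then x j - p₀ j else 0‖))) ^ 2) (fun _ _ => zero_le) hp₀
    · rw [indicator_of_notMem hxn]
      exact zero_le
  · filter_upwards [hne, hin] with x hx hxF
    have hpos : 0 < dist (Y (F.proj x)).1 o := by
      rw [dist_pos]
      intro hxo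
      obtain ⟨p₀, hp₀, hpb⟩ := hδ' _ (proj_mem F hxF) (by rw [hxo, dist_self]; exact hδ)
      have hp₀F : p₀ ∈ F.carrier := (ht p₀ hp₀).1
      have hp₀o : (Y p₀).1 = o := (ht p₀ hp₀).2
      have h1 := hest p₀ hp₀F hp₀o _ ⟨proj_mem F hxF, hpb⟩
      have h2 : 0 < ‖F.proj x - p₀‖ := norm_pos_iff.2 (sub_ne_zero.2 (hx p₀ hp₀))
      have h3 : 0 < c p₀ * ‖F.proj x - p₀‖ := mul_pos (hc p₀ hp₀F) h2
      rw [hxo, dist_self] at h1
      linarith
    have hev' : ∀ᶠ n in atTop, cap.r n < dist (Y (F.proj x)).1 o :=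
      cap.r_lim.eventually (gt_mem_nhds hpos)
    refine tendsto_const_nhds.congr' ?_
    filter_upwards [hev'] with n hn
    rw [indicator_of_notMem]
    simp only [mem_setOf_eq, not_le]
    exact hn

end Pool.Agent.Helper13Sob
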